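import Pool.Agent.AT6.Stmts3
import Pool.Agent.Helper49_AT3.BRG
import Pool.Agent.Helper48_AT5.CO3
import Pool.Agent.Helper89_AT3.BES2

/-!
# Squad AT6, row BSL: Bessel's inequality for the sections
-/

open scoped BigOperators

noncomputable section

namespace Pool.Agent.PP.T6.H9

open Pool.Agent.Helper51_AWC Pool.Agent.Helper79_WRA Pool.Agent.PP Pool.Agent.PP.KF
open Pool.Agent.PP.K9 Pool.Agent.PP.K9.H97 Pool.Agent.PP.H75 Pool.Agent.PP.T3 Pool.Agent.PP.T2

attribute [local instance] Ideal.Quotient.field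

section tools

variable {G : Type} [Group G] {F : Type} [Field F]

/-- the number of the conjugates under the inertial group -/
theorem card_conj_le' [Finite G] (T : Subgroup G) (u : G) (S : Finset G)
    (hS : ∀ u' ∈ S, ∃ t ∈ T, t * u' * t⁻¹ = u) : S.card ≤ (T ⊓ Cu u).relIndex T := by
  classical
  set C := T ⊓ Cu u with hC
  have hE : C.relIndex T = Nat.card (T ⧸ C.subgroupOf T) := rfl
  have : Fintype (T ⧸ C.subgroupOf T) := Fintype.ofFinite _
  rw [hE, Nat.card_eq_fintype_card, ← Finset.card_univ]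
  have h1 : S ⊆ (Finset.univ : Finset (T ⧸ C.subgroupOf T)).image
      (fun q => ((q.out : T) : G) * u * ((q.out : T) : G)⁻¹) := by
    intro u' hu'
    obtain ⟨t, ht, htu⟩ := hS u' hu'
    rw [Finset.mem_image]
    let t' : T := ⟨t, ht⟩
    let q : T ⧸ C.subgroupOf T := ((t'⁻¹ : T) : T ⧸ C.subgroupOf T)
    refine ⟨q, Finset.mem_univ _, ?_⟩
    have hc : ((t'⁻¹ : T)⁻¹ * q.out) ∈ C.subgroupOf T := by
      rw [← QuotientGroup.eq]
      exact (Quotient.out_eq' q).symm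
    rw [Subgroup.mem_subgroupOf] at hc
    set c : T := (t'⁻¹ : T)⁻¹ * q.out with hcd
    have h4 : ((q.out : T) : G) = t⁻¹ * (c : G) := by
      simp [t', hcd]
    have h3 : (c : G) * u = u * c :=
      Subgroup.mem_centralizer_singleton_iff.1 (Subgroup.mem_inf.1 hc).2
    rw [h4]
    calc t⁻¹ * (c : G) * u * (t⁻¹ * (c : G))⁻¹ = t⁻¹ * ((c : G) * u) * (c : G)⁻¹ * t := by group
      _ = t⁻¹ * (u * (c : G)) * (c : G)⁻¹ * t := by rw [h3]
      _ = t⁻¹ * u * t := by group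
      _ = u' := by
        rw [← htu]
        group
  exact le_trans (Finset.card_le_card h1) Finset.card_image_le

theorem cen_le_cu {V : Subgroup G} {v : G} (hv : v ∈ V) :
    Subgroup.centralizer (V : Set G) ≤ Cu v := by
  intro c hc
  rw [Subgroup.mem_centralizer_singleton_iff]
  exact (Subgroup.mem_centralizer_iff.1 hc v hv).symm

/-- the norm of the sum of vectors which are orthogonal if they are not related -/
theorem pair_sum {κ : Type} [Fintype κ] (q : Finset G) (z : G → κ → ℂ) (R : G → G → Prop)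
    [DecidableRel R] (hs : ∀ v ∈ q, ∀ w ∈ q, R v w → R w v)
    (h0 : ∀ v ∈ q, ∀ w ∈ q, ¬ R v w → ∑ k, z v k * starRingEnd ℂ (z w k) = 0) :
    ∑ k, Complex.normSq (∑ v ∈ q, z v k) ≤
      ∑ v ∈ q, ((q.filter (fun w => R v w)).card : ℝ) * ∑ k, Complex.normSq (z v k) := by
  classical
  have h1 : ∀ v w, (∑ k, z v k * starRingEnd ℂ (z w k)).re ≤
      (∑ k, Complex.normSq (z v k) + ∑ k, Complex.normSq (z w k)) / 2 := by
    intro v w
    rw [Complex.re_sum, ← Finset.sum_add_distrib, Finset.sum_div]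
    refine Finset.sum_le_sum fun k _ => ?_
    rw [Complex.mul_re, Complex.conj_re, Complex.conj_im, Complex.normSq_apply,
      Complex.normSq_apply]
    nlinarith [sq_nonneg ((z v k).re - (z w k).re), sq_nonneg ((z v k).im - (z w k).im)]
  have h2 : ∑ k, Complex.normSq (∑ v ∈ q, z v k) =
      ∑ v ∈ q, ∑ w ∈ q, (∑ k, z v k * starRingEnd ℂ (z w k)).re := by
    have h3 : ∀ k, Complex.normSq (∑ v ∈ q, z v k) =
        ∑ v ∈ q, ∑ w ∈ q, (z v k * starRingEnd ℂ (z w k)).re := by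
      intro k
      have h4 : ((Complex.normSq (∑ v ∈ q, z v k) : ℝ) : ℂ) =
          ∑ v ∈ q, ∑ w ∈ q, z v k * starRingEnd ℂ (z w k) := by
        rw [← Complex.mul_conj, map_sum, Finset.sum_mul_sum]
      have h5 := congrArg Complex.re h4
      rw [Complex.ofReal_re, Complex.re_sum] at h5
      rw [h5]
      exact Finset.sum_congr rfl fun v _ => Complex.re_sum _ _
    simp only [h3, Complex.re_sum]
    rw [Finset.sum_comm]
    refine Finset.sum_congr rfl fun v _ => ?_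
    rw [Finset.sum_comm]
  have h3 : ∀ v ∈ q, ∀ w ∈ q, (∑ k, z v k * starRingEnd ℂ (z w k)).re ≤
      (if R v w then (∑ k, Complex.normSq (z v k)) / 2 else 0) +
        (if R v w then (∑ k, Complex.normSq (z w k)) / 2 else 0) := by
    intro v hv w hw
    by_cases h : R v w
    · rw [if_pos h, if_pos h, ← add_div]
      exact h1 v w
    · rw [if_neg h, if_neg h, h0 v hv w hw h, Complex.zero_re, add_zero]
  rw [h2]
  have h4 : ∑ v ∈ q, ∑ w ∈ q, (if R v w then (∑ k, Complex.normSq (z w k)) / 2 else 0) =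
      ∑ v ∈ q, ∑ w ∈ q, (if R v w then (∑ k, Complex.normSq (z v k)) / 2 else 0) := by
    rw [Finset.sum_comm]
    refine Finset.sum_congr rfl fun v hv => Finset.sum_congr rfl fun w hw => ?_
    by_cases h : R v w
    · rw [if_pos h, if_pos (hs v hv w hw h)]
    · rw [if_neg h, if_neg fun h' => h (hs w hw v hv h')]
  have h5 : ∀ v ∈ q, ∑ w ∈ q, (if R v w then (∑ k, Complex.normSq (z v k)) / 2 else 0) =
      ((q.filter (fun w => R v w)).card : ℝ) * ((∑ k, Complex.normSq (z v k)) / 2) := by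
    intro v _
    rw [← Finset.sum_filter, Finset.sum_const, nsmul_eq_mul]
  calc ∑ v ∈ q, ∑ w ∈ q, (∑ k, z v k * starRingEnd ℂ (z w k)).re
      ≤ ∑ v ∈ q, ∑ w ∈ q, ((if R v w then (∑ k, Complex.normSq (z v k)) / 2 else 0) +
        (if R v w then (∑ k, Complex.normSq (z w k)) / 2 else 0)) :=
        Finset.sum_le_sum fun v hv => Finset.sum_le_sum fun w hw => h3 v hv w hw
    _ = ∑ v ∈ q, ((q.filter (fun w => R v w)).card : ℝ) * ((∑ k, Complex.normSq (z v k)) / 2) +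
        ∑ v ∈ q, ((q.filter (fun w => R v w)).card : ℝ) *
          ((∑ k, Complex.normSq (z v k)) / 2) := by
        simp only [Finset.sum_add_distrib]
        rw [h4, Finset.sum_congr rfl h5]
    _ = ∑ v ∈ q, ((q.filter (fun w => R v w)).card : ℝ) * ∑ k, Complex.normSq (z v k) := by
        rw [← Finset.sum_add_distrib]
        exact Finset.sum_congr rfl fun v _ => by ring

theorem fin_P {α β : Type} [AddCommMonoid β] [Fintype α] (P : α → Prop) [DecidablePred P]
    (f : α → β) : ∑ᶠ (s : α) (_ : P s), f s = ∑ s ∈ Finset.univ.filter P, f s := by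
  rw [finsum_eq_sum_of_fintype, Finset.sum_filter]
  exact Finset.sum_congr rfl fun s _ => finsum_eq_if

end tools

section norm

variable {G : Type} [Group G] [Finite G] {M : Ideal (integralClosure ℤ ℂ)} [M.IsMaximal]

/-- Bessel's inequality for the characters of a subgroup -/
theorem bes_one (bes : BesStmt) (C : Subgroup G) (b : G → FF M) (R : Finset G) (y : G → ℂ) :
    ∑ κ ∈ (T5.H48.ife_fin (fun t : C => b t)).toFinset,
      Complex.normSq (∑ s ∈ R, y s * H75.ext0 C κ s) ≤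
      (Nat.card C : ℝ) * ∑ s ∈ R, Complex.normSq (y s) := by
  classical
  have := Fintype.ofFinite G
  have := Fintype.ofFinite C
  set S := (T5.H48.ife_fin (fun t : C => b t)).toFinset with hS
  have hirr : ∀ κ : S, (κ : C → ℂ) ∈ Irr C := fun κ => ((Set.Finite.mem_toFinset _).1 κ.2).1
  have h1 := bes S G (fun κ g => H75.ext0 C κ g) (Nat.card C : ℝ) (by positivity) (by
    intro κ
    rw [Finset.sum_eq_single κ]
    · rw [T5.H48.ext0_sum]
      have h1 : ∑ c : C, (κ : C → ℂ) c * starRingEnd ℂ ((κ : C → ℂ) c) = Nat.card C := by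
        have h2 := irr_orth_self (hirr κ)
        rw [Nat.card_eq_fintype_card, ← h2]
        exact Finset.sum_congr rfl fun c _ => by rw [H94.irr_star (hirr κ)]
      rw [h1, Complex.norm_natCast]
    · intro κ' _ hne
      rw [T5.H48.ext0_sum]
      have h1 : ∑ c : C, (κ : C → ℂ) c * starRingEnd ℂ ((κ' : C → ℂ) c) = 0 := by
        have h2 := irr_orth_ne (hirr κ) (hirr κ') (fun h => hne (Subtype.ext h.symm))
        rw [← h2]
        exact Finset.sum_congr rfl fun c _ => by rw [H94.irr_star (hirr κ')]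
      rw [h1, norm_zero]
    · intro h
      exact absurd (Finset.mem_univ _) h) (fun g => if g ∈ R then y g else 0)
  have h2 : ∀ κ : S, ∑ g, (if g ∈ R then y g else 0) * H75.ext0 C κ g =
      ∑ s ∈ R, y s * H75.ext0 C κ s := by
    intro κ
    rw [← Finset.sum_filter_add_sum_filter_not Finset.univ (fun g => g ∈ R)]
    have h3 : ∑ g ∈ Finset.univ.filter (fun g => ¬ g ∈ R),
        (if g ∈ R then y g else 0) * H75.ext0 C κ g = 0 := by
      refine Finset.sum_eq_zero fun g hg => ?_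
      rw [if_neg (Finset.mem_filter.1 hg).2, zero_mul]
    rw [h3, add_zero, Finset.filter_mem_eq_inter, Finset.univ_inter]
    exact Finset.sum_congr rfl fun g hg => by rw [if_pos hg]
  have h3 : ∑ g, Complex.normSq (if g ∈ R then y g else 0) = ∑ s ∈ R, Complex.normSq (y s) := by
    rw [← Finset.sum_filter_add_sum_filter_not Finset.univ (fun g => g ∈ R)]
    have h3 : ∑ g ∈ Finset.univ.filter (fun g => ¬ g ∈ R),
        Complex.normSq (if g ∈ R then y g else 0) = 0 := by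
      refine Finset.sum_eq_zero fun g hg => ?_
      rw [if_neg (Finset.mem_filter.1 hg).2, map_zero]
    rw [h3, add_zero, Finset.filter_mem_eq_inter, Finset.univ_inter]
    exact Finset.sum_congr rfl fun g hg => by rw [if_pos hg]
  rw [h3] at h1
  simp only [h2] at h1
  rw [← Finset.sum_coe_sort S]
  exact h1

/-- the norm of the vector of one section -/
theorem norm_one (co3 : T5.Co3Stmt) (bes : BesStmt) [Fintype (Irr G)] {ℓ : ℕ} [Fact ℓ.Prime]
    (hM : (ℓ : integralClosure ℤ ℂ) ∈ M) {v : G} (hv : El ℓ v) {b : G → FF M} (hb : Ix (Cu v) b)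
    (R : Finset G) (hR : ∀ s ∈ R, s ∈ Cu v ∧ Reg ℓ s) (Y : G → ℂ) :
    ∑ χ : Irr G, Complex.normSq ((Nat.card (Cu v) : ℂ)⁻¹ *
      ∑ s ∈ R, gv M (Cu v) (v * s) b χ * starRingEnd ℂ (Y s)) ≤
      (Nat.card (Cu v) : ℝ)⁻¹ * ∑ s ∈ R, Complex.normSq (Y s) := by
  classical
  set n : ℂ := (Nat.card (Cu v) : ℂ)⁻¹ with hn
  have hns : starRingEnd ℂ n = n := by
    rw [hn, map_inv₀, map_natCast]
  set S := (T5.H48.ife_fin (fun t : Cu v => b t)).toFinset with hS
  have h1 : ((∑ χ : Irr G, Complex.normSq (n *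
      ∑ s ∈ R, gv M (Cu v) (v * s) b χ * starRingEnd ℂ (Y s)) : ℝ) : ℂ) =
      ((Nat.card (Cu v) : ℝ)⁻¹ ^ 2 * ∑ κ ∈ S, Complex.normSq
        (∑ s ∈ R, starRingEnd ℂ (Y s) * H75.ext0 (Cu v) κ s) : ℝ) := by
    push_cast
    have e1 : ∀ χ : Irr G, ((Complex.normSq (n *
        ∑ s ∈ R, gv M (Cu v) (v * s) b χ * starRingEnd ℂ (Y s)) : ℝ) : ℂ) =
        ∑ s ∈ R, ∑ s' ∈ R, n ^ 2 * (starRingEnd ℂ (Y s) * Y s') *
          (gv M (Cu v) (v * s) b χ * starRingEnd ℂ (gv M (Cu v) (v * s') b χ)) := by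
      intro χ
      rw [← Complex.mul_conj, map_mul, hns, map_sum]
      have e2 : n * (∑ s ∈ R, gv M (Cu v) (v * s) b χ * starRingEnd ℂ (Y s)) *
          (n * ∑ s ∈ R, starRingEnd ℂ (gv M (Cu v) (v * s) b χ * starRingEnd ℂ (Y s))) =
          n ^ 2 * ((∑ s ∈ R, gv M (Cu v) (v * s) b χ * starRingEnd ℂ (Y s)) *
          ∑ s ∈ R, starRingEnd ℂ (gv M (Cu v) (v * s) b χ * starRingEnd ℂ (Y s))) := by ring
      rw [e2, Finset.sum_mul_sum, Finset.mul_sum]
      refine Finset.sum_congr rfl fun s _ => ?_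
      rw [Finset.mul_sum]
      refine Finset.sum_congr rfl fun s' _ => ?_
      rw [map_mul, Complex.conj_conj]
      ring
    rw [Finset.sum_congr rfl fun χ _ => e1 χ, Finset.sum_comm]
    have e3 : ∀ s ∈ R, ∑ χ : Irr G, ∑ s' ∈ R, n ^ 2 * (starRingEnd ℂ (Y s) * Y s') *
          (gv M (Cu v) (v * s) b χ * starRingEnd ℂ (gv M (Cu v) (v * s') b χ)) =
        ∑ s' ∈ R, n ^ 2 * (starRingEnd ℂ (Y s) * Y s') * T5.kr M (Cu v) b s s' := by
      intro s hs
      rw [Finset.sum_comm]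
      refine Finset.sum_congr rfl fun s' hs' => ?_
      rw [← Finset.mul_sum]
      have e4 := co3 ℓ M hM G v hv b hb s (hR s hs).1 (hR s hs).2 s' (hR s' hs').1 (hR s' hs').2
      rw [T3.H49.finsum_mem_fintype] at e4
      rw [e4]
    rw [Finset.sum_congr rfl e3]
    have e5 : ∀ κ ∈ S, ((Complex.normSq
        (∑ s ∈ R, starRingEnd ℂ (Y s) * H75.ext0 (Cu v) κ s) : ℝ) : ℂ) =
        ∑ s ∈ R, ∑ s' ∈ R, (starRingEnd ℂ (Y s) * Y s') *
          (H75.ext0 (Cu v) κ s * starRingEnd ℂ (H75.ext0 (Cu v) κ s')) := by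
      intro κ _
      rw [← Complex.mul_conj, map_sum, Finset.sum_mul_sum]
      refine Finset.sum_congr rfl fun s _ => Finset.sum_congr rfl fun s' _ => ?_
      rw [map_mul, Complex.conj_conj]
      ring
    rw [Finset.sum_congr rfl e5]
    have e6 : ∑ κ ∈ S, ∑ s ∈ R, ∑ s' ∈ R, (starRingEnd ℂ (Y s) * Y s') *
          (H75.ext0 (Cu v) κ s * starRingEnd ℂ (H75.ext0 (Cu v) κ s')) =
        ∑ s ∈ R, ∑ s' ∈ R, (starRingEnd ℂ (Y s) * Y s') * T5.kr M (Cu v) b s s' := by
      rw [Finset.sum_comm]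
      refine Finset.sum_congr rfl fun s _ => ?_
      rw [Finset.sum_comm]
      refine Finset.sum_congr rfl fun s' _ => ?_
      rw [← Finset.mul_sum, T5.H48.kr_eq]
    rw [e6, Finset.mul_sum]
    refine Finset.sum_congr rfl fun s _ => ?_
    rw [Finset.mul_sum]
    refine Finset.sum_congr rfl fun s' _ => ?_
    rw [hn]
    ring
  have h2 := Complex.ofReal_injective h1
  rw [h2]
  have h3 := bes_one bes (Cu v) b R (fun s => starRingEnd ℂ (Y s))
  simp only [Complex.normSq_conj] at h3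
  have h4 : (0 : ℝ) < Nat.card (Cu v) := by exact_mod_cast Nat.card_pos
  calc (Nat.card (Cu v) : ℝ)⁻¹ ^ 2 * ∑ κ ∈ S, Complex.normSq
        (∑ s ∈ R, starRingEnd ℂ (Y s) * H75.ext0 (Cu v) κ s)
      ≤ (Nat.card (Cu v) : ℝ)⁻¹ ^ 2 * ((Nat.card (Cu v) : ℝ) * ∑ s ∈ R, Complex.normSq (Y s)) :=
        mul_le_mul_of_nonneg_left h3 (by positivity)
    _ = (Nat.card (Cu v) : ℝ)⁻¹ * ∑ s ∈ R, Complex.normSq (Y s) := by
        field_simp

end norm

/-- BSL -/
theorem bsl (co3 : T5.Co3Stmt) (co5 : T5.Co5Stmt) (fus : FusStmt) : BslStmt := by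
  intro ℓ hℓ M _ hM G _ _ e V γ hL q hq b hb Y
  classical
  have bes : BesStmt := T3.H89.bes
  have := Fintype.ofFinite G
  have : Finite (Irr G) := (T3.H49.irr_fin G).to_subtype
  have := Fintype.ofFinite (Irr G)
  have hEl : ∀ v ∈ q, El ℓ v := by
    intro v hv
    obtain ⟨n, hn⟩ := hL.tp.pg ⟨v, hq v hv⟩
    exact ⟨n, congrArg Subtype.val hn⟩
  let R : G → Finset G := fun v => Finset.univ.filter (fun s => s ∈ Cu v ∧ Reg ℓ s)
  have hR : ∀ v, ∀ s ∈ R v, s ∈ Cu v ∧ Reg ℓ s := fun v s hs => (Finset.mem_filter.1 hs).2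
  let z : G → Irr G → ℂ := fun v χ => (Nat.card (Cu v) : ℂ)⁻¹ *
    ∑ s ∈ R v, gv M (Cu v) (v * s) (b v) χ * starRingEnd ℂ (Y v s)
  have hz : ∀ v (χ : Irr G), (Nat.card (Cu v) : ℂ)⁻¹ *
      ∑ᶠ (s : G) (_ : s ∈ Cu v ∧ Reg ℓ s),
        gv M (Cu v) (v * s) (b v) χ * starRingEnd ℂ (Y v s) = z v χ := by
    intro v χ
    rw [fin_P]
  have hY : ∀ v, ∑ᶠ (s : G) (_ : s ∈ Cu v ∧ Reg ℓ s), Complex.normSq (Y v s) =
      ∑ s ∈ R v, Complex.normSq (Y v s) := fun v => fin_P _ _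
  rw [T3.H49.finsum_mem_fintype]
  have h0 : ∀ v ∈ q, ∀ w ∈ q, (¬ ∃ t ∈ Tg V γ, t * w * t⁻¹ = v) →
      ∑ k, z v k * starRingEnd ℂ (z w k) = 0 := by
    intro v hv w hw hno
    have h1 : ∀ k : Irr G, z v k * starRingEnd ℂ (z w k) =
        ∑ s ∈ R v, ∑ s' ∈ R w, ((Nat.card (Cu v) : ℂ)⁻¹ * (Nat.card (Cu w) : ℂ)⁻¹ *
          (starRingEnd ℂ (Y v s) * Y w s')) *
          (gv M (Cu v) (v * s) (b v) k * starRingEnd ℂ (gv M (Cu w) (w * s') (b w) k)) := by
      intro k
      change ((Nat.card (Cu v) : ℂ)⁻¹ *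
        ∑ s ∈ R v, gv M (Cu v) (v * s) (b v) k * starRingEnd ℂ (Y v s)) *
        starRingEnd ℂ ((Nat.card (Cu w) : ℂ)⁻¹ *
        ∑ s ∈ R w, gv M (Cu w) (w * s) (b w) k * starRingEnd ℂ (Y w s)) = _
      rw [map_mul, map_inv₀, map_natCast, map_sum, mul_mul_mul_comm, Finset.sum_mul_sum,
        Finset.mul_sum]
      refine Finset.sum_congr rfl fun s _ => ?_
      rw [Finset.mul_sum]
      refine Finset.sum_congr rfl fun s' _ => ?_
      rw [map_mul, Complex.conj_conj]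
      ring
    rw [Finset.sum_congr rfl fun k _ => h1 k, Finset.sum_comm]
    refine Finset.sum_eq_zero fun s hs => ?_
    rw [Finset.sum_comm]
    refine Finset.sum_eq_zero fun s' hs' => ?_
    rw [← Finset.mul_sum]
    have h2 := co5 ℓ M hM G v w (hEl v hv) (hEl w hw) (b v) (b w) (hb v hv).blk.ix
      (hb w hw).blk.ix (by
        intro x hx
        rcases (hb v hv).blk.dich (T3.H49.bx_cj hx (hb w hw).blk) with h2 | h2
        · exfalso
          apply hno
          exact fus ℓ M hM G e V γ hL v (hq v hv) w (hq w hw) (b v) (b w) (hb v hv) (hb w hw) x hx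
            h2.symm
        · exact h2) s (hR v s hs).1 (hR v s hs).2 s' (hR w s' hs').1 (hR w s' hs').2
    rw [T3.H49.finsum_mem_fintype] at h2
    rw [h2, mul_zero]
  have h1 : ∑ χ : Irr G, Complex.normSq (∑ v ∈ q, (Nat.card (Cu v) : ℂ)⁻¹ *
      ∑ᶠ (s : G) (_ : s ∈ Cu v ∧ Reg ℓ s),
        gv M (Cu v) (v * s) (b v) χ * starRingEnd ℂ (Y v s)) =
      ∑ χ : Irr G, Complex.normSq (∑ v ∈ q, z v χ) := by
    refine Finset.sum_congr rfl fun χ _ => ?_
    rw [Finset.sum_congr rfl fun v _ => hz v χ]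
  rw [h1]
  refine le_trans (pair_sum q z (fun v w => ∃ t ∈ Tg V γ, t * w * t⁻¹ = v) ?_ h0) ?_
  · rintro v _ w _ ⟨t, ht, rfl⟩
    exact ⟨t⁻¹, (Tg V γ).inv_mem ht, by group⟩
  rw [Finset.mul_sum]
  refine Finset.sum_le_sum fun v hv => ?_
  have h2 : (q.filter (fun w => ∃ t ∈ Tg V γ, t * w * t⁻¹ = v)).card ≤
      (Tg V γ ⊓ Cu v).relIndex (Tg V γ) :=
    card_conj_le' (Tg V γ) v _ fun w hw => (Finset.mem_filter.1 hw).2
  have h3 : (Subgroup.centralizer (V : Set G)).relIndex (Tg V γ ⊓ Cu v) *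
      (Tg V γ ⊓ Cu v).relIndex (Tg V γ) = ix V γ :=
    Subgroup.relIndex_mul_relIndex _ _ _
      (le_inf (T3.H49.cen_le_Tg hL.gam) (cen_le_cu (hq v hv))) inf_le_left
  have h4 : (0 : ℝ) < (Subgroup.centralizer (V : Set G)).relIndex (Tg V γ ⊓ Cu v) := by
    exact_mod_cast Nat.pos_of_ne_zero Subgroup.FiniteIndex.index_ne_zero
  have h5 := norm_one co3 bes hM (hEl v hv) (hb v hv).blk.ix (R v) (hR v) (Y v)
  have h6 : (0 : ℝ) ≤ (Nat.card (Cu v) : ℝ)⁻¹ * ∑ s ∈ R v, Complex.normSq (Y v s) :=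
    mul_nonneg (by positivity) (Finset.sum_nonneg fun s _ => Complex.normSq_nonneg _)
  rw [hY]
  calc ((q.filter (fun w => ∃ t ∈ Tg V γ, t * w * t⁻¹ = v)).card : ℝ) *
        ∑ k, Complex.normSq (z v k)
      ≤ ((Tg V γ ⊓ Cu v).relIndex (Tg V γ) : ℝ) *
        ((Nat.card (Cu v) : ℝ)⁻¹ * ∑ s ∈ R v, Complex.normSq (Y v s)) := by
        refine mul_le_mul (by exact_mod_cast h2) h5
          (Finset.sum_nonneg fun k _ => Complex.normSq_nonneg _) (by positivity)
    _ = (ix V γ : ℝ) * ((((Subgroup.centralizer (V : Set G)).relIndex (Tg V γ ⊓ Cu v) : ℕ) : ℝ)⁻¹ *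
        ((Nat.card (Cu v) : ℝ)⁻¹ * ∑ s ∈ R v, Complex.normSq (Y v s))) := by
        rw [← h3]
        push_cast
        field_simp

end Pool.Agent.PP.T6.H9
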